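import Pool.Agent.V5helper56.AN.Top

/-!
# Pointwise convergence for nilpotent groups of affine maps of the torus, arbitrary polynomials

`haarT r` is the Haar probability measure of the torus `𝕋^r = (ℝ/ℤ)^r`. `SingleGood μ g`: the
averages `(1/(2N+1)) ∑_{|n| ≤ N} G (g n x)` of every bounded measurable real function `G` converge
for almost every `x`.

Proof. For characters `f_j(x) = e(v_j · x)` the product is `e(γ_n · x) e(θ_n)`. By `p`-adic
analysis the frequency `γ_n ∈ ℤ^r` is, along each progression modulo some `q`, constant or of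
bounded multiplicity; in the second case the averages tend to `0` almost everywhere, whatever the
phases. In the first case the phases decide, and nilpotency enters: `θ_n` lies in the finitely
generated group `C` generated by the coordinates of the translations, and for every homomorphism
`φ : C → ℚ` the nilpotent group acts by affine maps on `ℚ^r` with an invariant affine subspace on
which it acts unipotently; hence `φ(θ_n) = p(n) - γ_n · x` with a polynomial `p` and a fixed
`x ∈ ℚ^r`, and where `γ_n` is constant Weyl's theorem gives convergence. (For two hyperbolic affine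
maps `A x` and `A x + c` generating a solvable group the phases are lacunary and the averages can
diverge.)
-/

set_option autoImplicit false

open Filter Topology MeasureTheory Polynomial
open scoped ENNReal

namespace Pool.Agent.Results.MP_4d8f14_an.AffineNilpotent

open Pool.Agent.TH635.FB (SingleGood)
open Pool.Agent.H922R3.TA (haarT)

/-- Let `T_i x = A_i x + c_i` (`A_i ∈ GL_r(ℤ)`, `c_i ∈ 𝕋^r`) be affine bijections of the torus
generating a nilpotent group, `P_ij ∈ ℤ[n]` arbitrary, `g_j(n) = T_1^(P_1j(n)) ⋯ T_d^(P_dj(n))` and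
`f_1, …, f_m ∈ L^∞(𝕋^r)` such that, for each `j`, either `f_j` is continuous at almost every point,
or `g_j(n) = b^n c` for some bijections `b, c`, or the averages of single bounded functions along
`g_j` converge almost everywhere. Then
`(1/(2N+1)) ∑_{|n| ≤ N} f_1 (g_1(n) x) ⋯ f_m (g_m(n) x)` converges for almost every `x`. -/
theorem result (r d m : ℕ) (T : Fin d → Equiv.Perm (UnitAddTorus (Fin r)))
    (hT : ∀ i, ∃ (A : (Matrix (Fin r) (Fin r) ℤ)ˣ) (c : UnitAddTorus (Fin r)), ∀ x k,
      T i x k = ∑ l, (A : Matrix (Fin r) (Fin r) ℤ) k l • x l + c k)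
    (hnil : Group.IsNilpotent (Subgroup.closure (Set.range T)))
    (P : Fin d → Fin m → ℤ[X]) (f : Fin m → UnitAddTorus (Fin r) → ℂ)
    (hf : ∀ j, MemLp (f j) ∞ (haarT r))
    (hg : ∀ j, (∀ᵐ x ∂(haarT r), ContinuousAt (f j) x) ∨
      (∃ b c : Equiv.Perm (UnitAddTorus (Fin r)), ∀ n : ℤ,
        (List.ofFn fun i : Fin d => T i ^ (P i j).eval n).prod = b ^ n * c) ∨
      SingleGood (haarT r) fun n => (List.ofFn fun i : Fin d => T i ^ (P i j).eval n).prod) :
    ∀ᵐ x ∂(haarT r), ∃ L : ℂ, Tendsto
      (fun N : ℕ => ((2 * N + 1 : ℕ) : ℂ)⁻¹ *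
        ∑ n ∈ Finset.Icc (-(N : ℤ)) (N : ℤ),
          ∏ j : Fin m, f j ((List.ofFn fun i : Fin d => T i ^ (P i j).eval n).prod x))
      atTop (𝓝 L) :=
  Pool.Agent.V5helper56.AN.affine_nilpotent T hT hnil P hf hg

end Pool.Agent.Results.MP_4d8f14_an.AffineNilpotent
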