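import Pool.Agent.V5helper56.CD.Top

/-!
# Pointwise convergence for algebraic `ℤ^d`-actions on compact abelian groups, arbitrary polynomials

`X` is an arbitrary compact metrizable abelian group (connected or not, finite or infinite
dimensional: tori, solenoids, `𝕋^ℤ`, `(ℤ/p)^(ℤ^d)` and their closed shift invariant subgroups, ...),
`T_1, …, T_d` are commuting affine bijections `x ↦ α_i(x) c_i`. `SingleGood μ g`: the averages
`(1/(2N+1)) ∑_{|n| ≤ N} G (g n x)` of every bounded measurable real function `G` converge for
almost every `x`.

Proof. For characters `f_j` the product is an affine character `γ_n(x) θ_n`, where `γ_n` is an orbit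
sum `∑_j t_1^(P_1j(n)) ⋯ t_d^(P_dj(n)) χ_j` in a finitely generated module over `ℤ[ℤ^d]`. Dichotomy
(`Pool.Agent.V5helper56.CD.dich_all`): for every finitely generated module over a finitely generated
commutative ring, units `t_i` and elements `χ_j` there are `q`, `C` and `δ > 0` such that along each
progression modulo `q` the orbit sum is constant or takes each value at most `C N ^ (1 - δ)` times
among the first `N` terms. Meet-irreducible submodules reduce this to two cases. If the integers
act injectively, Noether normalization and generic freeness reduce to matrices over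
`ℚ[y_1, …, y_s][1/h]`, which are specialised to matrices over `ℤ_p`, where Strassmann's theorem
applies. In positive characteristic the elements `t` of infinite order have `t - 1` injective, and
a PET induction over the sets of polynomial maps (each step is one Cauchy-Schwarz inequality for the
set of zeros) gives the power saving. In the second case of the dichotomy the averages tend to zero
almost everywhere; in the first case the phases `θ_n` are polynomial by the Artin–Rees lemma, and
Weyl's theorem applies.
-/

set_option autoImplicit false

open Filter Topology MeasureTheory Polynomial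
open scoped ENNReal

namespace Pool.Agent.Results.MP_4d8f14_an.AlgebraicPolynomials

open Pool.Agent.TH635.FB (SingleGood)

/-- Let `X` be a compact metrizable abelian group with Haar probability `μ`, let
`T_1, …, T_d` be commuting affine bijections of `X`, let `P_ij ∈ ℤ[n]` be arbitrary,
`g_j(n) = T_1^(P_1j(n)) ⋯ T_d^(P_dj(n))` and `f_1, …, f_m ∈ L^∞` such that, for each `j`, either
`f_j` is continuous at almost every point, or `g_j(n) = b^n c` for some bijections `b, c`, or the
averages of single bounded functions along `g_j` converge almost everywhere. Then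
`(1/(2N+1)) ∑_{|n| ≤ N} f_1 (g_1(n) x) ⋯ f_m (g_m(n) x)` converges for almost every `x`. -/
theorem result {X : Type} [CommGroup X] [TopologicalSpace X] [IsTopologicalGroup X]
    [CompactSpace X] [TopologicalSpace.MetrizableSpace X] [MeasurableSpace X]
    [BorelSpace X] (μ : Measure X) [μ.IsHaarMeasure] [IsProbabilityMeasure μ] (d m : ℕ)
    (T : Fin d → Equiv.Perm X) (hT : ∀ i, ∃ (α : X →ₜ* X) (c : X), ∀ x, T i x = α x * c)
    (hc : ∀ i j, Commute (T i) (T j)) (P : Fin d → Fin m → ℤ[X]) (f : Fin m → X → ℂ)
    (hf : ∀ j, MemLp (f j) ∞ μ)
    (hg : ∀ j, (∀ᵐ x ∂μ, ContinuousAt (f j) x) ∨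
      (∃ b c : Equiv.Perm X, ∀ n : ℤ,
        (List.ofFn fun i : Fin d => T i ^ (P i j).eval n).prod = b ^ n * c) ∨
      SingleGood μ fun n => (List.ofFn fun i : Fin d => T i ^ (P i j).eval n).prod) :
    ∀ᵐ x ∂μ, ∃ L : ℂ, Tendsto
      (fun N : ℕ => ((2 * N + 1 : ℕ) : ℂ)⁻¹ *
        ∑ n ∈ Finset.Icc (-(N : ℤ)) (N : ℤ),
          ∏ j : Fin m, f j ((List.ofFn fun i : Fin d => T i ^ (P i j).eval n).prod x))
      atTop (𝓝 L) :=
  Pool.Agent.V5helper56.CD.comm_affineF hT hc P hf hg

end Pool.Agent.Results.MP_4d8f14_an.AlgebraicPolynomials
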