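import Pool.Agent.V5helper15.LE.Sets

/-!
# MP_4d8f14_an: reduction of Q1 to linear exponents, Bernoulli shifts and sets of their generator

Let `PolynomialCase k D` be the assertion of Q1 for groups of step at most `k` and polynomials of degree at most
`D`. Let `LinearSets c` be the following assertion. Let `σ` and `S_1, …, S_m` be invertible measure preserving
maps which generate a nilpotent group of step at most `c`, and `R_j = S_j⁻¹ σ S_j`. Suppose that `σ` is a Bernoulli
shift with the independent generator `𝒞` and that the `S_j` leave all the σ-algebras `σ^n 𝒞` invariant (so that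
the `R_j` are Bernoulli shifts with the same independent generator), and let `A_1, …, A_m` be sets in `𝒞`. Then for
almost every `x` the set of the integers `n` with `R_j^n σ^(-n) x ∈ A_j` for all `j` has a density.

* `LinearSets (k (D + 1))` implies `PolynomialCase k D`.
* `PolynomialCase c 1` implies `LinearSets c`.
* Q1 (the frozen statement S04625) is equivalent to `LinearSets c` for all `c`. So Q1 for arbitrary polynomials
  follows from Q1 for the exponents `n`, `-n` and `0`, for Bernoulli shifts and for sets in their independent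
  generator.

Proof. On `X^ℤ` with the product measure let `σ` be the shift and let `S_j` act on the coordinate `k` by
`g_j(k) = T_1^(P_1j(k)) ⋯ T_d^(P_dj(k))`. Then `R_j^n σ^(-n) = S_j⁻¹ (σ^n S_j σ^(-n))` acts on the coordinate `0` by
`g_j(0)⁻¹ g_j(n) = g_j(n)`. The group generated by `σ` and the `S_j` has step at most `k (D + 1)`: with the
filtration `G_i = γ_{1 + ⌊(i-1)/(D+1)⌋}(G)` the sequences all of whose cubes are products of face elements
`[F, g]`, `g ∈ G_{|F| + s}`, form groups `Poly_s` with `[Poly_s, Poly_t] ⊆ Poly_{s+t}` and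
`σ u σ⁻¹ u⁻¹ ∈ Poly_{s+1}` for `u ∈ Poly_s` (Host-Kra cubes, Leibman's theorem), and `g_j ∈ Poly_1`.
-/

set_option autoImplicit false

open MeasureTheory
open scoped ENNReal

namespace Pool.Agent.Results.MP_4d8f14_an.LinearExponents

open Pool.Agent.V5helper15.LE

/-- Q1, as in the frozen statement S04625. -/
def Q1 : Prop :=
  ∀ (X : Type) [MeasurableSpace X] (μ : Measure X) [IsProbabilityMeasure μ]
    (d m : ℕ) (T : Fin d → Equiv.Perm X),
    (∀ i, Measurable ⇑(T i).symm) →
    (∀ i, MeasurePreserving (⇑(T i)) μ μ) →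
    Group.IsNilpotent (Subgroup.closure (Set.range T)) →
    ∀ (P : Fin d → Fin m → Polynomial ℤ), (∀ i j, (P i j).eval 0 = 0) →
    ∀ (f : Fin m → X → ℂ), (∀ j, MemLp (f j) ∞ μ) →
    ∀ᵐ x ∂μ, ∃ L : ℂ, Filter.Tendsto
      (fun N : ℕ => ((2 * N + 1 : ℕ) : ℂ)⁻¹ *
        ∑ n ∈ Finset.Icc (-(N : ℤ)) (N : ℤ),
          ∏ j : Fin m, f j ((List.ofFn fun i : Fin d => T i ^ (P i j).eval n).prod x))
      Filter.atTop (nhds L)

/-- **Reduction of Q1 to linear exponents.** -/
theorem result :
    (∀ k D : ℕ, 1 ≤ k → LinearSets (k * (D + 1)) → PolynomialCase k D) ∧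
    (∀ c : ℕ, PolynomialCase c 1 → LinearSets c) ∧
    (Q1 ↔ ∀ c : ℕ, LinearSets c) := by
  refine ⟨fun k D hk h => poly_of_lin k D hk (lin_of_sets _ h),
    fun c h => sets_of_lin c (lin_of_poly c h), ?_, ?_⟩
  · intro h c
    apply sets_of_lin
    apply lin_of_poly
    intro X _ μ _ d m T hTs hT hnil P hP f hf
    exact h X μ d m T hTs hT (Subgroup.isNilpotent_of_lowerCentralSeries_eq_bot hnil) P
      (fun i j => (hP i j).2) f hf
  · intro h X _ μ _ d m T hTs hT hnil P hP f hf
    obtain ⟨k, hk⟩ := (Subgroup.isNilpotent_iff_lowerCentralSeries _).1 hnil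
    have hk' : (Subgroup.closure (Set.range T)).lowerCentralSeries (k + 1) = ⊥ := by
      rw [eq_bot_iff, ← hk]
      exact Subgroup.lowerCentralSeries_antitone _ (Nat.le_succ k)
    obtain ⟨D, hD⟩ : ∃ D : ℕ, ∀ i j, (P i j).natDegree ≤ D := by
      refine ⟨∑ i, ∑ j, (P i j).natDegree, fun i j => ?_⟩
      refine le_trans ?_ (Finset.single_le_sum (f := fun i => ∑ j, (P i j).natDegree)
        (fun _ _ => Nat.zero_le _) (Finset.mem_univ i))
      exact Finset.single_le_sum (f := fun j => (P i j).natDegree) (fun _ _ => Nat.zero_le _)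
        (Finset.mem_univ j)
    exact poly_of_lin (k + 1) D (Nat.succ_le_succ (Nat.zero_le k)) (lin_of_sets _ (h _)) X μ d m T hTs hT hk' P
      (fun i j => ⟨hD i j, hP i j⟩) f hf

end Pool.Agent.Results.MP_4d8f14_an.LinearExponents
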