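import Pool.Agent.V5helper56.OK.Top

/-!
# Kolmogorov extensions for nilpotent groups: the base is characteristic for polynomial averages

`Γ` is a nilpotent group with a bi-invariant total order which has a least element `> 1` (for
example, `ℤ^d` or any finitely generated torsion-free nilpotent group with a lexicographic order).
A group `G` acts by measure preserving bijections `Φ g` on a probability space `X`, and `π : G → Γ`
is a homomorphism, `π e` the least element `> 1` (for example `G = Γ`, `π = id`).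

`X` is a Kolmogorov extension of its factor `𝒴` if there is a `σ`-algebra `𝒜 ⊇ 𝒴` with
`(Φ g)⁻¹ 𝒜 ⊆ 𝒜` for `π g ≤ 1` and without loss of innovations: a function `f ∈ L²` with
`E(f | (Φ g)⁻¹ 𝒜) = E(f | (Φ (e⁻¹ g))⁻¹ 𝒜)` for all `g` is measurable with respect to `𝒴`. For
`G = Γ = ℤ` this means that the `(Φ n)⁻¹ 𝒜` generate everything and that their intersection is
contained in `𝒴` (modulo null sets); for `ℤ^d` with the lexicographic order it holds for the perfect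
`σ`-algebras `𝒜` of Conze, Katznelson-Weiss and Kamiński, with `𝒴` the Pinsker `σ`-algebra.

In the problem, `G` is the group generated by `t_1, …, t_d`, `T_i = Φ (t_i)`.
-/

set_option autoImplicit false

open Filter Topology MeasureTheory Polynomial
open scoped ENNReal

namespace Pool.Agent.Results.MP_4d8f14_an.NilpotentKolmogorovFactor

/-- The action `Φ` of `G` on `(X, μ)` is a Kolmogorov extension of its factor `𝒴`, with respect to
the homomorphism `π` to the ordered group `Γ`, in which `π e` is the least element `> 1`. -/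
structure IsKolmogorovExtension {X G Γ : Type} [Group G] [Group Γ] [LinearOrder Γ]
    (𝒜 𝒴 : MeasurableSpace X) {mX : MeasurableSpace X} (μ : Measure X)
    (Φ : G →* Equiv.Perm X) (π : G →* Γ) (e : G) : Prop where
  /-- the group acts by measure preserving maps -/
  mp : ∀ g, MeasurePreserving (Φ g) μ μ
  /-- `π e` is the least element `> 1` -/
  least : IsLeast {γ : Γ | 1 < γ} (π e)
  le : 𝒜 ≤ mX
  base : 𝒴 ≤ 𝒜
  /-- `𝒴` is invariant -/
  inv : ∀ g, Measurable[𝒴, 𝒴] (Φ g : X → X)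
  /-- the past is smaller -/
  mono : ∀ g, π g ≤ 1 → 𝒜.comap (Φ g : X → X) ≤ 𝒜
  /-- functions without innovations are `𝒴`-measurable -/
  perfect : ∀ f : X → ℝ, MemLp f 2 μ →
    (∀ g : G, μ[f | 𝒜.comap (Φ g : X → X)] =ᵐ[μ] μ[f | 𝒜.comap (Φ (e⁻¹ * g) : X → X)]) →
    AEStronglyMeasurable[𝒴] f μ

/-- `h` is an innovation: it is bounded, measurable with respect to `(Φ g)⁻¹ 𝒜` for some `g`, and
its conditional expectation on `(Φ (e⁻¹ g))⁻¹ 𝒜` is zero. -/
def IsInnovation {X G : Type} [Group G] (𝒜 : MeasurableSpace X) {mX : MeasurableSpace X}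
    (μ : Measure X) (Φ : G →* Equiv.Perm X) (e : G) (h : X → ℂ) : Prop :=
  (∃ C : ℝ, ∀ x, ‖h x‖ ≤ C) ∧ ∃ g : G, Measurable[𝒜.comap (Φ g : X → X)] h ∧
    μ[h | 𝒜.comap (Φ (e⁻¹ * g) : X → X)] =ᵐ[μ] 0

/-- The functions of finite memory: the linear combinations of innovations and of bounded
`𝒴`-measurable functions. -/
def FiniteMemory {X G : Type} [Group G] (𝒜 𝒴 : MeasurableSpace X) {mX : MeasurableSpace X}
    (μ : Measure X) (Φ : G →* Equiv.Perm X) (e : G) : Submodule ℂ (X → ℂ) :=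
  Submodule.span ℂ ({h | IsInnovation 𝒜 μ Φ e h} ∪
    {h | Measurable[𝒴] h ∧ ∃ C : ℝ, ∀ x, ‖h x‖ ≤ C})

/-- The averages over `|n| ≤ N` of single bounded functions along the maps `t n` converge almost
everywhere. -/
def SingleAveragesConverge {X : Type} [MeasurableSpace X] (μ : Measure X) (t : ℤ → X → X) : Prop :=
  ∀ H : X → ℝ, Measurable H → (∃ C : ℝ, ∀ x, |H x| ≤ C) →
    ∀ᵐ x ∂μ, ∃ L : ℝ, Tendsto (fun N : ℕ => ((2 * N + 1 : ℕ) : ℝ)⁻¹ *
      ∑ n ∈ Finset.Icc (-(N : ℤ)) (N : ℤ), H (t n x)) atTop (𝓝 L)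

/-- `g_j(n) = t_1 ^ P_1j(n) ⋯ t_d ^ P_dj(n)` -/
def gs {G : Type} [Group G] {d m : ℕ} (t : Fin d → G) (P : Fin d → Fin m → ℤ[X]) (j : Fin m)
    (n : ℤ) : G :=
  (List.ofFn fun i => t i ^ (P i j).eval n).prod

/-- the average over `|n| ≤ N` -/
noncomputable def avg (N : ℕ) (a : ℤ → ℂ) : ℂ :=
  ((2 * N + 1 : ℕ) : ℂ)⁻¹ * ∑ n ∈ Finset.Icc (-(N : ℤ)) (N : ℤ), a n

/-- Let `X` be a Kolmogorov extension of its factor `𝒴`, over the nilpotent ordered group `Γ`. Let
`g_j(n) = t_1^(P_1j(n)) ⋯ t_d^(P_dj(n))`, where `P_ij ∈ ℤ[n]` and neither the `π (g_j)` nor the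
`π (g_i g_j⁻¹)`, `i ≠ j`, are constant. Let `f_j ∈ L^∞` and suppose that, for each `j`, either
`g_j(n) = b^n c`, or the averages of single bounded functions along `g_j` converge almost
everywhere, or `f_j` is a uniform limit of functions of finite memory. Then for almost every `x`
the averages of `W_n(x) (∏_j f_j (g_j(n) x) - ∏_j E(f_j | 𝒴) (g_j(n) x))` tend to zero, for all
uniformly bounded `𝒴`-measurable `W_n`. Hence the averages of `∏_j f_j (g_j(n) x)` converge almost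
everywhere if and only if those of `∏_j E(f_j | 𝒴) (g_j(n) x)` do. The functions of finite memory
are dense in `L^∞` for the norm of `L^1`. -/
theorem result (d m : ℕ) {X G Γ : Type} [Group G] [Group Γ] [LinearOrder Γ] [MulLeftMono Γ]
    [MulRightMono Γ] [Group.IsNilpotent Γ] (𝒜 𝒴 : MeasurableSpace X) [mX : MeasurableSpace X]
    (μ : Measure X) [IsProbabilityMeasure μ] (Φ : G →* Equiv.Perm X) (π : G →* Γ) (e : G)
    (hK : IsKolmogorovExtension 𝒜 𝒴 μ Φ π e) :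
    (∀ (t : Fin d → G) (P : Fin d → Fin m → ℤ[X]),
      (∀ j, ∃ n n' : ℤ, π (gs t P j n) ≠ π (gs t P j n')) →
      (∀ i j, i ≠ j → ∃ n n' : ℤ,
        π (gs t P i n * (gs t P j n)⁻¹) ≠ π (gs t P i n' * (gs t P j n')⁻¹)) →
      ∀ f : Fin m → X → ℂ, (∀ j, MemLp (f j) ∞ μ) →
      (∀ j, (∃ b c : G, ∀ n, gs t P j n = b ^ n * c) ∨
        SingleAveragesConverge μ (fun n x => Φ (gs t P j n) x) ∨
        ∀ ε : ℝ, 0 < ε → ∃ h ∈ FiniteMemory 𝒜 𝒴 μ Φ e, ∀ᵐ x ∂μ, ‖f j x - h x‖ ≤ ε) →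
      (∀ W : ℤ → X → ℂ, (∀ n, Measurable[𝒴] (W n)) → (∃ C : ℝ, ∀ n x, ‖W n x‖ ≤ C) →
        ∀ᵐ x ∂μ, Tendsto (fun N : ℕ => avg N fun n => W n x *
          (∏ j, f j (Φ (gs t P j n) x) - ∏ j, (μ[f j | 𝒴]) (Φ (gs t P j n) x)))
          atTop (𝓝 0)) ∧
      ((∀ᵐ x ∂μ, ∃ L : ℂ, Tendsto (fun N : ℕ => avg N fun n =>
          ∏ j, f j (Φ (gs t P j n) x)) atTop (𝓝 L)) ↔
        (∀ᵐ x ∂μ, ∃ L : ℂ, Tendsto (fun N : ℕ => avg N fun n =>
          ∏ j, (μ[f j | 𝒴]) (Φ (gs t P j n) x)) atTop (𝓝 L)))) ∧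
    (∀ f : X → ℂ, MemLp f ∞ μ → ∀ ε : ℝ, 0 < ε →
      ∃ h ∈ FiniteMemory 𝒜 𝒴 μ Φ e, ∫ x, ‖f x - h x‖ ∂μ ≤ ε) := by
  have hFl : Pool.Agent.TH784.KE.Flow μ Φ := hK.mp
  have hA : Pool.Agent.V5helper56.OK.OFilt mX 𝒜 Φ π := ⟨hK.le, hK.mono⟩
  have hY : Pool.Agent.TH784.KE.Base 𝒴 𝒜 Φ := ⟨hK.base, hK.inv⟩
  have hS : Pool.Agent.V5helper56.OK.Spn μ 𝒜 𝒴 Φ e := hK.perfect
  refine ⟨fun t P h1 h2 f hf hslot => ?_, fun f hf ε hε =>
    Pool.Agent.V5helper56.OK.win_dense hFl hA hY hK.least hS hf hε⟩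
  have hR := Pool.Agent.V5helper56.OK.rare_poly π t P h1 h2
  have hmain : ∀ W : ℤ → X → ℂ, (∀ n, Measurable[𝒴] (W n)) → (∃ C : ℝ, ∀ n x, ‖W n x‖ ≤ C) →
      ∀ᵐ x ∂μ, Tendsto (fun N : ℕ => avg N fun n => W n x *
        (∏ j, f j (Φ (gs t P j n) x) - ∏ j, (μ[f j | 𝒴]) (Φ (gs t P j n) x)))
        atTop (𝓝 0) := by
    intro W hW hWb
    refine Pool.Agent.V5helper56.OK.main_Linf hFl hA hY hK.least hS hR hW hWb hf fun j => ?_
    rcases hslot j with h | h | h
    · exact Or.inl h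
    · refine Or.inr (Or.inl fun H hH hC => ?_)
      filter_upwards [h H hH hC] with x hx
      obtain ⟨L, hL⟩ := hx
      refine ⟨L, hL.congr fun N => ?_⟩
      rw [Pool.Agent.TH739.PA.avr, Pool.Agent.TH739.PA.Icc_card]
      rfl
    · exact Or.inr (Or.inr h)
  refine ⟨hmain, ?_⟩
  have h3 := hmain (fun _ _ => 1) (fun _ => measurable_const) ⟨1, fun _ _ => by simp⟩
  have h4 : ∀ᵐ x ∂μ, Tendsto (fun N : ℕ => avg N (fun n => ∏ j, f j (Φ (gs t P j n) x)) -
      avg N fun n => ∏ j, (μ[f j | 𝒴]) (Φ (gs t P j n) x)) atTop (𝓝 0) := by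
    filter_upwards [h3] with x hx
    refine hx.congr fun N => ?_
    unfold avg
    rw [← mul_sub, ← Finset.sum_sub_distrib]
    simp only [one_mul]
  constructor
  · intro h
    filter_upwards [h, h4] with x hx hx4
    obtain ⟨L, hL⟩ := hx
    refine ⟨L, ?_⟩
    have h5 := hL.sub hx4
    rw [sub_zero] at h5
    refine h5.congr fun N => ?_
    ring
  · intro h
    filter_upwards [h, h4] with x hx hx4
    obtain ⟨L, hL⟩ := hx
    refine ⟨L, ?_⟩
    have h5 := hL.add hx4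
    rw [add_zero] at h5
    refine h5.congr fun N => ?_
    ring

end Pool.Agent.Results.MP_4d8f14_an.NilpotentKolmogorovFactor
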